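import Pool.Agent.Y6.G.Stm

/-!
# Job EP-BTC: the bootstrap (helper293; adapted from `Pool.Agent.Y475.EF.Btc` of helper475)
-/

open Set Filter Topology
open scoped ComplexConjugate

set_option autoImplicit false

namespace Pool.Agent.Y293.EP.BTC

open Pool.Agent.Y6.G

open Pool.Agent.Y6.M (qd mq Kz Ker Adm Dat TSol Wt KSol cX cY Uth εc x0 Mains MDat Z3 C3 Coef dt cr
  cj kc nsq len adv leray Kop IsField IsSol energy enstr Md hs br Frame cK sgz)
open Pool.Agent.Y6.F (DSol Mx κr Prt rk code cd ln NM S_CODE S_IBP S_LIMR S_UC)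

/-- the continuity argument -/
theorem boot {I : Type} (z : I → ℝ → ℂ) (B : I → ℝ → ℝ) (O : Set I) (F : Set I) (hF : F.Finite)
    (θ : ℝ) (hθ : 0 ≤ θ) (hz : ∀ i, ContinuousOn (z i) (Icc 0 θ))
    (hB0 : ∀ i ∈ O, ∀ t ∈ Icc 0 θ, 0 < B i t)
    (hBm : ∀ i ∈ O, ∀ s ∈ Icc 0 θ, ∀ t ∈ Icc 0 θ, s ≤ t → B i s ≤ B i t)
    (hzF : ∀ i ∉ F, ∀ t ∈ Icc 0 θ, z i t = 0) (h0 : ∀ i ∈ O, z i 0 = 0)
    (key : ∀ t ∈ Icc 0 θ, (∀ s ∈ Icc 0 t, ∀ i ∈ O, ‖z i s‖ ≤ B i s) →
      ∀ i ∈ O, ‖z i t‖ ≤ B i t / 2) :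
    ∀ t ∈ Icc 0 θ, ∀ i ∈ O, ‖z i t‖ ≤ B i t := by
  set S : Set ℝ := {t | ∀ s ∈ Icc 0 t, s ≤ θ → ∀ i ∈ O, ‖z i s‖ ≤ B i s} with hS
  have hcl : IsClosed (S ∩ Icc 0 θ) := by
    rw [← isSeqClosed_iff_isClosed]
    intro u a hu ha
    have haI : a ∈ Icc 0 θ := isClosed_Icc.mem_of_tendsto ha (Eventually.of_forall fun n => (hu n).2)
    refine ⟨?_, haI⟩
    intro s hs hsθ i hi
    rcases lt_or_eq_of_le hs.2 with h1 | h1
    · have h2 : ∀ᶠ n in atTop, s < u n := ha.eventually (lt_mem_nhds h1)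
      obtain ⟨n, hn⟩ := h2.exists
      exact (hu n).1 s ⟨hs.1, hn.le⟩ hsθ i hi
    · subst h1
      by_cases h3 : ∃ n, s ≤ u n
      · obtain ⟨n, hn⟩ := h3
        exact (hu n).1 s ⟨hs.1, hn⟩ hsθ i hi
      · push Not at h3
        have h4 : Tendsto (fun n => ‖z i (u n)‖) atTop (𝓝 ‖z i s‖) := by
          refine Tendsto.norm ?_
          have h5 := (hz i s haI).tendsto
          exact h5.comp (tendsto_nhdsWithin_iff.2 ⟨ha, Eventually.of_forall fun n => (hu n).2⟩)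
        refine le_of_tendsto h4 (Eventually.of_forall fun n => ?_)
        exact ((hu n).1 (u n) ⟨(hu n).2.1, le_rfl⟩ (hu n).2.2 i hi).trans
          (hBm i hi _ (hu n).2 _ haI (h3 n).le)
  have h0S : (0 : ℝ) ∈ S := by
    intro s hs _ i hi
    have hs0 : s = 0 := le_antisymm hs.2 hs.1
    subst hs0
    rw [h0 i hi, norm_zero]
    exact (hB0 i hi 0 ⟨le_rfl, hθ⟩).le
  have hsub : Icc 0 θ ⊆ S := by
    refine hcl.Icc_subset_of_forall_mem_nhdsWithin h0S ?_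
    rintro x ⟨hxS, hx⟩
    have hxI : x ∈ Icc 0 θ := ⟨hx.1, hx.2.le⟩
    have hk := key x hxI (fun s hs i hi => hxS s hs (hs.2.trans hxI.2) i hi)
    have h1 : ∀ i ∈ F, i ∈ O → ∀ᶠ u in 𝓝 x, u ∈ Icc 0 θ → ‖z i u‖ < B i x := by
      intro i _ hi
      have h2 : ‖z i x‖ < B i x := by
        have := hk i hi
        have := hB0 i hi x hxI
        linarith
      have h3 := (hz i x hxI).norm
      have h4 := h3.tendsto.eventually (gt_mem_nhds h2)
      exact eventually_nhdsWithin_iff.1 h4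
    have h2 : ∀ᶠ u in 𝓝 x, ∀ i ∈ F, i ∈ O → u ∈ Icc 0 θ → ‖z i u‖ < B i x := by
      rw [Filter.eventually_all_finite hF]
      intro i hiF
      by_cases hi : i ∈ O
      · filter_upwards [h1 i hiF hi] with u hu _ using hu
      · exact Eventually.of_forall fun u h => absurd h hi
    obtain ⟨δ, hδ, hball⟩ := Metric.eventually_nhds_iff.1 h2
    have h3 : Ioo x (x + δ) ∈ 𝓝[>] x := Ioo_mem_nhdsGT (by linarith)
    refine mem_of_superset h3 ?_
    intro y hy s hs hsθ i hi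
    by_cases hsx : s ≤ x
    · exact hxS s ⟨hs.1, hsx⟩ hsθ i hi
    · push Not at hsx
      have hsI : s ∈ Icc 0 θ := ⟨hs.1, hsθ⟩
      by_cases hiF : i ∈ F
      · have h4 := hball (show dist s x < δ by
          rw [Real.dist_eq, abs_of_pos (by linarith)]
          linarith [hs.2, hy.2]) i hiF hi hsI
        exact h4.le.trans (hBm i hi x hxI s hsI hsx.le)
      · rw [hzF i hiF s hsI, norm_zero]
        exact (hB0 i hi s hsI).le
  intro t ht i hi
  exact hsub ht t ⟨ht.1, le_rfl⟩ ht.2 i hi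

theorem t_BTC : Pool.Agent.Y6.G.S_BTC := by
  intro hLV hCODE hENV hRATE hIBP hMS hSUMS hVEC hLAT hSTA hSTB hARI1 hUNR hKERM hDATM S hS h hh N z
    hT θ hθ hCnd
  have hKer := hKERM hLV hCODE hSUMS h hh
  have hDat := (hDATM hLV).1
  obtain ⟨-, -, -, -, -, hfin, hlen, -⟩ := id hLV
  have hln : ∀ i : Md, 1 ≤ ln i ∧ ln i ^ 2 = (nsq i.1.1 : ℝ) := hCODE.2.2.2.2.1
  have hI60 : Icc (0 : ℝ) θ ⊆ Icc 0 60 := Icc_subset_Icc_right (by linarith [hθ.2])
  have hcont : ∀ i, ContinuousOn (z i) (Icc 0 θ) := by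
    intro i
    by_cases hi : lvM i ≤ N
    · intro t ht
      exact ((hT.deriv i hi t (hI60 ht)).continuousWithinAt).mono hI60
    · have : z i = fun _ => 0 := funext fun t => hT.zero i (not_le.1 hi) t
      rw [this]
      exact continuousOn_const
  have hone : ∀ i, ∀ t ∈ Icc 0 θ, ‖z i t‖ ≤ 1 := by
    intro i t ht
    have h1 := hT.energy t (hI60 ht)
    have h2 : Summable (fun a => ‖z a t‖ ^ 2) := by
      refine summable_of_hasFiniteSupport ((hfin N).subset ?_)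
      intro a ha
      by_contra hc
      apply ha
      simp [hT.zero a (not_le.1 hc) t]
    have h3 : ‖z i t‖ ^ 2 ≤ ∑' a, ‖z a t‖ ^ 2 := h2.le_tsum i (fun _ _ => by positivity)
    have h4 : ‖z i t‖ ^ 2 ≤ 1 := h3.trans h1
    exact (sq_le_one_iff₀ (norm_nonneg _)).1 h4
  obtain ⟨hAdq, hMmono, hmain⟩ := hMS hLV z θ hθ.1 hcont (fun i t ht => hT.real i t (hI60 ht)) hone hCnd
  obtain ⟨hE1, hE2, -⟩ := id hENV
  have hBpos : ∀ i ∈ {i : Md | σM i ≠ 0}, ∀ t ∈ Icc 0 θ,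
      0 < (10 ^ 20 : ℝ)⁻¹ * (ln i ^ 7)⁻¹ * env (Ms z t) (ln i) := by
    intro i _ t ht
    have h1 := ((hE1 _ (hAdq t ht)).2.2.2.2.1 (ln i)).1
    have h2 : 0 < ln i := lt_of_lt_of_le one_pos (hln i).1
    positivity
  have hBmono : ∀ i ∈ {i : Md | σM i ≠ 0}, ∀ s ∈ Icc 0 θ, ∀ t ∈ Icc 0 θ, s ≤ t →
      (10 ^ 20 : ℝ)⁻¹ * (ln i ^ 7)⁻¹ * env (Ms z s) (ln i) ≤
      (10 ^ 20 : ℝ)⁻¹ * (ln i ^ 7)⁻¹ * env (Ms z t) (ln i) := by
    intro i _ s hs t ht hst
    have h2 : 0 < ln i := lt_of_lt_of_le one_pos (hln i).1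
    refine mul_le_mul_of_nonneg_left ?_ (by positivity)
    exact hE2 _ _ (hAdq s hs) (hAdq t ht) (hMmono s hs t ht hst) _ h2
  have hres := boot z (fun i t => (10 ^ 20 : ℝ)⁻¹ * (ln i ^ 7)⁻¹ * env (Ms z t) (ln i))
    {i : Md | σM i ≠ 0} {i : Md | lvM i ≤ N} (hfin N) θ hθ.1 hcont hBpos hBmono
    (fun i hi t _ => hT.zero i (not_le.1 hi) t) ?_ ?_
  · intro i hi t ht
    exact hres t ht i hi
  · intro i hi
    by_cases hiN : lvM i ≤ N
    · rw [hT.init i hiN]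
      exact hDat.main i hi
    · exact hT.zero i (not_le.1 hiN) 0
  · intro t ht hP i hi
    have htI : t ∈ Icc (0 : ℝ) 1 := ⟨ht.1, ht.2.trans hθ.2⟩
    have hsub : ∀ s ∈ Icc 0 t, s ∈ Icc 0 θ := fun s hs => ⟨hs.1, hs.2.trans ht.2⟩
    have hA := hAdq t ht
    have hEt := hE1 _ hA
    have he : ∀ a, ∀ s ∈ Icc 0 t, ‖z a s‖ ≤ eF (Ms z t) a := by
      intro a s hs
      unfold eF
      split_ifs with ha
      · have h1 := hmain a ha s (hsub s hs) t ht hs.2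
        have h2 := hlen a ha
        have h3 := hln a
        have hα : 0 ≤ αM (lvM a) := by unfold αM; positivity
        have h4 : αM (lvM a) ≤ ln a := by
          refine le_of_sq_le_sq ?_ (by linarith [h3.1])
          rw [h3.2]
          exact h2.1
        have h5 : ln a ≤ 2 * αM (lvM a) := by
          refine le_of_sq_le_sq ?_ (by positivity)
          rw [h3.2]
          refine h2.2.trans ?_
          nlinarith [sq_nonneg (αM (lvM a))]
        rw [hEt.2.2.1 (lvM a) (ln a) (by linarith) (by linarith)]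
        exact h1
      · exact (hP s hs a ha).trans (hBmono a ha s (hsub s hs) t ht hs.2)
    have he0 : ∀ a, 0 ≤ eF (Ms z t) a := fun a =>
      (norm_nonneg _).trans (he a 0 ⟨le_rfl, ht.1⟩)
    have hr : ∀ a, ∀ s ∈ Icc 0 t, ‖qd (cK h) (fun b => z b s) a‖ ≤ rF (Ms z t) a := by
      intro a s hs
      obtain ⟨h1, h2⟩ := hRATE hLV hCODE hSUMS hVEC hLAT hENV h hh _ hA a
      refine le_trans ?_ h2
      have h3 : ∀ p : Md × Md, ‖cK h a p.1 p.2 * z p.1 s * z p.2 s‖ ≤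
          ‖cK h a p.1 p.2‖ * eF (Ms z t) p.1 * eF (Ms z t) p.2 := by
        intro p
        rw [norm_mul, norm_mul]
        refine mul_le_mul ?_ (he p.2 s hs) (norm_nonneg _) (mul_nonneg (norm_nonneg _) (he0 _))
        exact mul_le_mul_of_nonneg_left (he p.1 s hs) (norm_nonneg _)
      exact tsum_of_norm_bounded h1.hasSum h3
    have hD : ∀ p : Md × Md, cK h i p.1 p.2 ≠ 0 → 0 < D0 i p →
        D0 i p ≤ |S (lvM p.1) * σM p.1 + S (lvM p.2) * σM p.2 - S (lvM i) * σM i| := by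
      intro p hp hD0
      obtain ⟨h1, h2⟩ := (hVEC h hh).2.2.2 i p.1 p.2 hp
      have h3 : ¬ (unr p.1 ∧ unr p.2 ∧ unr i) := by
        intro hc
        unfold D0 at hD0
        rw [if_pos hc] at hD0
        exact lt_irrefl _ hD0
      have h4 := hS i p.1 p.2 h1 h2 h3
      unfold D0
      rw [if_neg h3]
      exact h4
    have hsplit : ∀ p : Md × Md, tm h (Ms z t) i p =
        (if 0 < D0 i p then tm h (Ms z t) i p else 0) +
        (if 0 < D0 i p then 0 else tm h (Ms z t) i p) := by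
      intro p
      split_ifs <;> simp
    obtain ⟨hA1, hA2⟩ := hSTA hLV hCODE hVEC hLAT hENV h hh _ hA i
    obtain ⟨hB1, hB2⟩ := hSTB hLV hCODE hVEC hENV hARI1 hUNR h hh _ hA i hi
    have hHS : HasSum (fun p : Md × Md => tm h (Ms z t) i p)
        (∑' p : Md × Md, (if 0 < D0 i p then tm h (Ms z t) i p else 0) +
          ∑' p : Md × Md, (if 0 < D0 i p then 0 else tm h (Ms z t) i p)) := by
      have h1 := hA1.hasSum.add hB1.hasSum
      rw [show (fun p : Md × Md => tm h (Ms z t) i p) = fun p : Md × Md =>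
        (if 0 < D0 i p then tm h (Ms z t) i p else 0) +
        (if 0 < D0 i p then 0 else tm h (Ms z t) i p) from funext hsplit]
      exact h1
    have hle : ∑' p : Md × Md, tm h (Ms z t) i p ≤
        (10 ^ 20 : ℝ)⁻¹ * (ln i ^ 7)⁻¹ * env (Ms z t) (ln i) / 2 := by
      rw [hHS.tsum_eq]
      refine (add_le_add hA2 hB2).trans ?_
      have h2 : 0 < ln i := lt_of_lt_of_le one_pos (hln i).1
      have h3 := (hEt.2.2.2.2.1 (ln i)).1
      have h4 : 0 ≤ (10 ^ 20 : ℝ)⁻¹ * (ln i ^ 7)⁻¹ * env (Ms z t) (ln i) := by positivity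
      have h5 : (10 ^ 20 : ℝ)⁻¹ / 10 * (ln i ^ 7)⁻¹ * env (Ms z t) (ln i) +
          (10 ^ 20)⁻¹ / 10 * (ln i ^ 7)⁻¹ * env (Ms z t) (ln i) =
          (10 ^ 20 : ℝ)⁻¹ * (ln i ^ 7)⁻¹ * env (Ms z t) (ln i) * (1 / 5) := by ring
      rw [h5]
      linarith
    refine le_trans ?_ hle
    exact hIBP Md lvM br σM (cK h) S vM N z hKer hDat hT t htI (eF (Ms z t)) (rF (Ms z t)) he hr i hi
      (D0 i) hD hHS.summable t ⟨ht.1, le_rfl⟩

end Pool.Agent.Y293.EP.BTC
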